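import Pool.Agent.N119.PS.Stm

/-!
# Project PSC, leaf PER (helper80): elementary facts about periodic words
-/

set_option autoImplicit false

namespace Pool.Agent.N80.PSC

open Pool.Agent.N119.PS Pool.Agent.H472R3 Pool.Agent.H67R3.FSR Pool.Agent.H67R4.SR

variable {N : ℕ}

private theorem wd_red (p : PerWord N) (i n : ℕ) : FreeGroup.IsReduced (p.wd i n) := by
  unfold FreeGroup.IsReduced PerWord.wd
  rw [List.isChain_map, List.isChain_range]
  intro m _
  rw [reduced_iff]
  exact p.red (i + m)

private theorem wd_add (p : PerWord N) (i a b : ℕ) :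
    p.wd i (a + b) = p.wd i a ++ p.wd (i + a) b := by
  unfold PerWord.wd
  rw [List.range_add, List.map_append, List.map_map]
  congr 1
  refine List.map_congr_left fun t _ => ?_
  simp only [Function.comp_apply]
  rw [add_assoc]

private theorem wd_length (p : PerWord N) (i n : ℕ) : (p.wd i n).length = n := by
  unfold PerWord.wd
  rw [List.length_map, List.length_range]

private theorem el_add (p : PerWord N) (i a b : ℕ) :
    p.el i (a + b) = p.el i a * p.el (i + a) b := by
  unfold PerWord.el
  rw [wd_add, FreeGroup.mul_mk]

private theorem el_per (p : PerWord N) (i n : ℕ) : p.el (i + p.m) n = p.el i n := by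
  unfold PerWord.el PerWord.wd
  congr 1
  refine List.map_congr_left fun t _ => ?_
  have : i + p.m + t = (i + t) + p.m := by omega
  rw [this, p.per]

private theorem el_word (p : PerWord N) (i n : ℕ) : (p.el i n).toWord = p.wd i n :=
  toWord_mk_red (wd_red p i n)

private theorem el_norm (p : PerWord N) (i n : ℕ) : (p.el i n).norm = n := by
  unfold FreeGroup.norm
  rw [el_word, wd_length]

theorem t : Pool.Agent.N119.PS.S_PER := by
  intro N p
  refine ⟨wd_red p, el_word p, el_norm p, ?_, el_add p, el_per p, ?_⟩
  · intro h
    have h1 := el_norm p 0 p.m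
    have h2 : p.el 0 p.m = 1 := h
    rw [h2, FreeGroup.norm_one] at h1
    have := p.pos
    omega
  · intro i
    have h1 : p.el 0 (i + p.m) = p.el 0 i * p.el i p.m := by
      have := el_add p 0 i p.m
      rwa [zero_add] at this
    have h2 : p.el 0 (i + p.m) = p.g * p.el 0 i := by
      have := el_add p 0 p.m i
      rw [add_comm p.m i, el_per] at this
      exact this
    rw [isConj_iff]
    refine ⟨p.el 0 i, ?_⟩
    rw [← h1, h2, mul_inv_cancel_right]

end Pool.Agent.N80.PSC
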